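import Pool.Agent.Lead.CRate

set_option autoImplicit false

namespace Pool.Agent.Results.MP_5a8271_pr.Q1
open Classical

/-- upper probability function `F x = P(X ≥ x)` of the density `f` -/
noncomputable def upf {S : Type} [PartialOrder S] (f : S → ℝ) (x : S) : ℝ :=
  ∑' y : S, if x ≤ y then f y else 0

/-- A standard discrete poset without maximal elements that supports no constant rate
distribution. -/
theorem result : ∃ (S : Type) (_ : PartialOrder S), Nonempty S ∧ Countable S ∧
    (∀ x : S, {y : S | y ≤ x}.Finite) ∧ (∀ x : S, ∃ y : S, y ≠ x ∧ x ≤ y) ∧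
    ¬ ∃ (f : S → ℝ) (α : ℝ), (∀ x, 0 ≤ f x) ∧ HasSum f 1 ∧ 0 < α ∧ (∀ x, 0 < upf f x) ∧
      ∀ x, f x = α * upf f x := by
  refine ⟨Finset ℕ, inferInstance, ⟨∅⟩, inferInstance, ?_, ?_, ?_⟩
  · intro x
    exact Set.finite_Iic x
  · intro x
    obtain ⟨a, ha⟩ := Infinite.exists_notMem_finset x
    refine ⟨insert a x, fun h => ha (h ▸ Finset.mem_insert_self a x), Finset.subset_insert a x⟩
  · rintro ⟨f, α, h0, hs, hα, hF, h⟩
    have := Pool.Agent.Lead.CRate.real (1 : ℕ) f α h0 hs (fun x => by
      rw [h x]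
      unfold upf
      congr 1
      apply tsum_congr
      intro y
      by_cases hxy : x ⊆ y
      · rw [if_pos hxy, if_pos (show x ≤ y from hxy)]
      · rw [if_neg hxy, if_neg (show ¬ x ≤ y from hxy)])
    have h2 := h {1}
    rw [this] at h2
    exact (mul_pos hα (hF _)).ne h2

end Pool.Agent.Results.MP_5a8271_pr.Q1
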